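import Pool.Agent.N874.TF.Stm

/-!
# Irreducible polynomials of odd degree with trace zero over a finite field (helper250, for helper874;
a port of `Pool/Agent/N394/QM/Irr.lean` of helper394)
-/

set_option autoImplicit false
set_option linter.all false

open Polynomial Module
open scoped IntermediateField

namespace Pool.Agent.N250.TF

theorem cover {n : ℕ} (hodd : n % 2 = 1) (k E : Type) [Field k] [Finite k] [Field E] [Finite E]
    [Algebra k E] (hfr : finrank k E = n) (x : E) (hx : k⟮x⟯ ≠ ⊤) :
    ∃ d ∈ Finset.Icc 1 (n / 3), x ^ (Nat.card k ^ d) = x := by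
  haveI : FiniteDimensional k E := FiniteDimensional.of_finrank_pos (by omega)
  obtain ⟨d, hdd⟩ : ∃ d, d = finrank k k⟮x⟯ := ⟨_, rfl⟩
  have hmul : d * finrank k⟮x⟯ E = n := by
    rw [hdd, ← hfr]
    exact Module.finrank_mul_finrank k k⟮x⟯ E
  have hd1 : 1 ≤ d := by
    rw [hdd]
    exact Module.finrank_pos
  have he1 : finrank k⟮x⟯ E ≠ 1 := by
    intro h1
    exact hx (IntermediateField.finrank_eq_one_iff_eq_top.1 h1)
  obtain ⟨e, hee⟩ : ∃ e, e = finrank k⟮x⟯ E := ⟨_, rfl⟩
  rw [← hee] at hmul he1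
  have he3 : 3 ≤ e := by
    rcases Nat.lt_or_ge e 3 with h | h
    · exfalso
      interval_cases e
      · omega
      · exact he1 rfl
      · omega
    · exact h
  refine ⟨d, Finset.mem_Icc.2 ⟨hd1, ?_⟩, ?_⟩
  · rw [Nat.le_div_iff_mul_le (by norm_num), ← hmul]
    exact Nat.mul_le_mul_left _ he3
  · have hc : Nat.card k⟮x⟯ = Nat.card k ^ d := by
      rw [hdd, Module.natCard_eq_pow_finrank (K := k)]
    haveI : Fintype k⟮x⟯ := Fintype.ofFinite _
    have h2 := FiniteField.pow_card (IntermediateField.AdjoinSimple.gen k x)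
    rw [← Nat.card_eq_fintype_card, hc] at h2
    have h3 := congrArg (algebraMap k⟮x⟯ E) h2
    rw [map_pow, IntermediateField.AdjoinSimple.algebraMap_gen] at h3
    exact h3

theorem exists_gen {n : ℕ} (hodd : n % 2 = 1) (hn : 3 ≤ n) (k E : Type) [Field k] [Finite k]
    [Field E] [Finite E] [Algebra k E] (hfr : finrank k E = n) :
    ∃ x : E, Algebra.trace k E x = 0 ∧ k⟮x⟯ = ⊤ := by
  classical
  haveI : FiniteDimensional k E := FiniteDimensional.of_finrank_pos (by omega)
  have hq : 1 < Nat.card k := Finite.one_lt_card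
  by_contra hcon
  push Not at hcon
  have hsurj : Function.Surjective (Algebra.trace k E) := Algebra.trace_surjective _ _
  have hker : finrank k (LinearMap.ker (Algebra.trace k E)) = n - 1 := by
    have h1 := LinearMap.finrank_range_add_finrank_ker (Algebra.trace k E)
    rw [LinearMap.range_eq_top.2 hsurj, finrank_top, hfr, Module.finrank_self] at h1
    omega
  have hcard : Nat.card (LinearMap.ker (Algebra.trace k E)) = Nat.card k ^ (n - 1) := by
    rw [Module.natCard_eq_pow_finrank (K := k), hker]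
  let R : Finset E := (Finset.Icc 1 (n / 3)).biUnion fun d =>
    (X ^ (Nat.card k ^ d) - X : E[X]).roots.toFinset
  have hsub : ∀ x ∈ LinearMap.ker (Algebra.trace k E), x ∈ R := by
    intro x hx
    obtain ⟨d, hd, h1⟩ := cover hodd k E hfr x (hcon x hx)
    rw [Finset.mem_biUnion]
    refine ⟨d, hd, ?_⟩
    rw [Multiset.mem_toFinset, mem_roots (FiniteField.X_pow_card_pow_sub_X_ne_zero E
      (by rw [Finset.mem_Icc] at hd; omega) hq)]
    rw [IsRoot.def, eval_sub, eval_pow, eval_X, h1, sub_self]
  have h2 : Nat.card (LinearMap.ker (Algebra.trace k E)) ≤ R.card := by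
    rw [← Nat.card_eq_finsetCard R]
    exact Nat.card_le_card_of_injective
      (fun x : LinearMap.ker (Algebra.trace k E) => (⟨x.1, hsub x.1 x.2⟩ : R))
      fun x y hxy => Subtype.ext (congrArg (fun z : R => (z : E)) hxy)
  have h3 : R.card ≤ ∑ d ∈ Finset.Icc 1 (n / 3), Nat.card k ^ d := by
    refine Finset.card_biUnion_le.trans (Finset.sum_le_sum fun d hd => ?_)
    refine (Multiset.toFinset_card_le _).trans ((card_roots' _).trans ?_)
    rw [FiniteField.X_pow_card_pow_sub_X_natDegree_eq E (by rw [Finset.mem_Icc] at hd; omega) hq]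
  have h4 : ∑ d ∈ Finset.Icc 1 (n / 3), Nat.card k ^ d < Nat.card k ^ (n / 3 + 1) :=
    Nat.geomSum_lt hq fun j hj => by rw [Finset.mem_Icc] at hj; omega
  have h5 : Nat.card k ^ (n / 3 + 1) ≤ Nat.card k ^ (n - 1) :=
    Nat.pow_le_pow_right (by omega) (by omega)
  omega

theorem irrk0 (k : Type) [Field k] [Finite k] (g : ℕ) (hg : 1 ≤ g) : ∃ F : k[X], F.Monic ∧
    F.natDegree = 2 * g + 1 ∧ F.coeff (2 * g) = 0 ∧ Irreducible F := by
  classical
  obtain ⟨p, hp⟩ := CharP.exists k
  haveI : CharP k p := hp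
  haveI : Fact p.Prime := ⟨CharP.char_is_prime k p⟩
  haveI : NeZero (2 * g + 1) := ⟨by omega⟩
  have hfr : finrank k (FiniteField.Extension k p (2 * g + 1)) = 2 * g + 1 :=
    FiniteField.finrank_extension k p (2 * g + 1)
  haveI : FiniteDimensional k (FiniteField.Extension k p (2 * g + 1)) :=
    FiniteDimensional.of_finrank_pos (by omega)
  obtain ⟨x, hx, htop⟩ := exists_gen (by omega) (by omega) k
    (FiniteField.Extension k p (2 * g + 1)) hfr
  have hint : IsIntegral k x := IsIntegral.of_finite _ _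
  have hdeg : (minpoly k x).natDegree = 2 * g + 1 := by
    rw [← IntermediateField.adjoin.finrank hint, htop, IntermediateField.finrank_top', hfr]
  refine ⟨minpoly k x, minpoly.monic hint, hdeg, ?_, minpoly.irreducible hint⟩
  have h1 := trace_eq_finrank_mul_minpoly_nextCoeff k x
  have h2 : finrank k⟮x⟯ (FiniteField.Extension k p (2 * g + 1)) = 1 :=
    IntermediateField.finrank_eq_one_iff_eq_top.2 htop
  rw [hx, h2, Nat.cast_one, one_mul] at h1
  have h3 : (minpoly k x).nextCoeff = 0 := neg_eq_zero.1 h1.symm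
  rw [nextCoeff_of_natDegree_pos (by omega), hdeg] at h3
  exact h3

/-- Irreducible polynomials of odd degree with trace zero over a finite field. -/
theorem irrk : Pool.Agent.N874.TF.S_IRRK := irrk0

end Pool.Agent.N250.TF
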